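import Mathlib
import Pool.Agent.Helper428.UMRMain

set_option autoImplicit false

namespace Pool.Agent.Results.MP_d15038_co.Structure

open Classical
open Pool.Agent.Helper428.UMR

/-- Let `(n, m)` lie in the range of the problem, `n² - 3n + 4 ≤ 2m < n² - 2n`, and write
`a = n² - 2n - 2m` (so the complement `H` of a graph with `m` edges has `(n + a) / 2` edges). If
`a ≥ 3` and `G` is a uniformly most reliable graph with `n` vertices and `m` edges, then `3 ∣ a`
and the complement `H` of `G` is a disjoint union of `a / 3` triangles and `(n - a) / 2` single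
edges: every vertex has degree one or two in `H`, exactly `a` of them have degree two, and
adjacency in `H` is transitive. In particular no uniformly most reliable graph exists
when `a ≥ 4` and `3 ∤ a`. -/
theorem result (n m a : ℕ) (hrange : n ^ 2 + 4 ≤ 2 * m + 3 * n) (ha : 2 * m + a + 2 * n = n ^ 2)
    (h3 : 3 ≤ a) (G H : SimpleGraph (Fin n)) (hm : G.edgeFinset.card = m) (hG : IsUMR G)
    (hH : H = Gᶜ) :
    3 ∣ a ∧
    (∀ v, H.degree v = 1 ∨ H.degree v = 2) ∧
    (Finset.univ.filter (fun v => H.degree v = 2)).card = a ∧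
    (∀ u v w, H.Adj u v → H.Adj v w → u ≠ w → H.Adj u w) := by
  have hc : ∀ u v, H.Adj u v ↔ u ≠ v ∧ ¬ G.Adj u v := by
    intro u v
    rw [hH]
    exact SimpleGraph.compl_adj _ _ _
  have h1 := edges_add hc
  rw [hm] at h1
  have hedge : 2 * H.edgeFinset.card = n + a := by nlinarith
  have h4 : a + 4 ≤ n := by nlinarith
  obtain ⟨h5, h6, h7⟩ := structure_full hc hG a h3 hedge (by omega) (by omega)
  refine ⟨?_, h5, h6, h7⟩
  have := three_dvd h7
  rwa [h6] at this

end Pool.Agent.Results.MP_d15038_co.Structure
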